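import Pool.Agent.H13.MA.Stmts

/-!
# Module CHN: unions of chains of ccc systems
-/

set_option linter.unusedVariables false
set_option synthInstance.maxSize 100000

namespace SW

section
variable {M : Type} [SetStr M] [ZF M]

/-- the first coordinate -/
noncomputable def chnFst (z : M) : M := the (fun e => ∃ x : M, z = opair e x)

theorem chnFst_df : Fn1 (fun z : M => chnFst z) := by unfold chnFst; infer_instance

theorem chnFst_opair (e x : M) : chnFst (opair e x) = e := by
  unfold chnFst
  refine the_eq (p := fun e' => ∃ x' : M, opair e x = opair e' x') ⟨x, rfl⟩ ?_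
  rintro e' ⟨x', h⟩
  exact (opair_inj.1 h).1.symm

/-- the indices of a condition -/
noncomputable def chnSup (p : M) : M := img p (fun z => chnFst z)

theorem chnSup_df : Fn1 (fun p : M => chnSup p) := by
  have := chnFst_df (M := M)
  have : ∀ (n : ℕ) (t : (Fin n → M) → M) [DfT t], DfT (fun v => chnFst (t v)) :=
    fun n t ht => chnFst_df.comp1 ht
  unfold chnSup
  infer_instance

theorem mem_chnSup {w I p e : M} (hp : E p (PP w I)) :
    E e (chnSup p) ↔ ∃ x, E (opair e x) p := by
  unfold chnSup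
  rw [mem_img' chnFst_df]
  constructor
  · rintro ⟨z, hz, rfl⟩
    have h1 := (mem_PP.1 hp).2.1 z hz
    rw [mem_prod'] at h1
    obtain ⟨a, b, _, _, rfl⟩ := h1
    rw [chnFst_opair]
    exact ⟨b, hz⟩
  · rintro ⟨x, hx⟩
    exact ⟨_, hx, (chnFst_opair e x).symm⟩

end

/-- unions of chains of ccc systems are ccc systems -/
theorem ma_chn (hdel : DELStmt) (hrs : RSAStmt) (hcb : CBTStmt) : CHNStmt := by
  intro M _ _ w c hw hne hc hchain
  have cb := hcb M
  have rf := hrs M w
  have hsub : ∀ J, E J c → Sub J (sUn c) := fun J hJ => sub_sUn hJ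
  refine ⟨?_, ?_⟩
  · intro e he t ht
    rw [mem_sUn] at he
    obtain ⟨J, hJ, he⟩ := he
    obtain ⟨x, y, q, hx, hy, hq, hqs, rfl⟩ := (hc J hJ).1 e he t ht
    refine ⟨x, y, q, hx, hy, hq, fun z hz => ?_, rfl⟩
    have := hqs z hz
    rw [mem_prod'] at this ⊢
    obtain ⟨a, b, ha, hb, rfl⟩ := this
    exact ⟨a, b, hsub J hJ a ha, hb, rfl⟩
  · intro A hA
    by_contra hAc
    obtain ⟨A', r, hA'A, hA'c, hrf, hrs', hdis⟩ := hdel M A (fun p => chnSup p) chnSup_df hAc (by
      intro p hp
      exact finF.img _ chnFst_df (mem_PP.1 (hA.1 p hp)).1)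
    -- the root is contained in one member of the chain
    have hA'ne : ∃ p, E p A' := by
      by_contra h
      push Not at h
      apply hA'c
      rw [eq_emp h]
      exact cb.fin finF.emp
    obtain ⟨p0, hp0⟩ := hA'ne
    have hr : Sub r (sUn c) := by
      intro e he
      have h1 := hrs' p0 hp0 e he
      rw [mem_chnSup (hA.1 p0 (hA'A p0 hp0))] at h1
      obtain ⟨x, hx⟩ := h1
      have h2 := (mem_PP.1 (hA.1 p0 (hA'A p0 hp0))).2.1 _ hx
      rw [mem_prod] at h2
      exact h2.1
    obtain ⟨J, hJ, hrJ⟩ : ∃ J, E J c ∧ Sub r J := by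
      refine finF.ind (fun x : M => Sub x (sUn c) → ∃ J : M, E J c ∧ Sub x J) inferInstance ?_ ?_ r
        hrf hr
      · intro _
        obtain ⟨J, hJ⟩ := hne
        exact ⟨J, hJ, fun z hz => absurd hz (not_mem_emp z)⟩
      · intro x a _ _ ih hxa
        obtain ⟨J, hJ, hxJ⟩ := ih (fun z hz => hxa z (by rw [mem_ins]; exact Or.inl hz))
        have ha := hxa a (by rw [mem_ins]; exact Or.inr rfl)
        rw [mem_sUn] at ha
        obtain ⟨J', hJ', haJ'⟩ := ha
        rcases hchain J J' hJ hJ' with h | h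
        · refine ⟨J', hJ', fun z hz => ?_⟩
          rw [mem_ins] at hz
          rcases hz with hz | rfl
          · exact h z (hxJ z hz)
          · exact haJ'
        · refine ⟨J, hJ, fun z hz => ?_⟩
          rw [mem_ins] at hz
          rcases hz with hz | rfl
          · exact hxJ z hz
          · exact h _ haJ'
    have hJs := (hc J hJ).1
    -- restrictions are incompatible
    have hinc : ∀ p q, E p A' → E q A' → p ≠ q → ¬ Cpt (PP w J) (rs w J p) (rs w J q) := by
      rintro p q hp hq hpq ⟨s, hs, hps, hqs⟩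
      refine hA.2 p q (hA'A p hp) (hA'A q hq) hpq ⟨bun (bun p q) s, ?_, ?_, ?_⟩
      · refine rf.ama hJs (hsub J hJ) (hA.1 p (hA'A p hp)) (hA.1 q (hA'A q hq)) hs hps hqs ?_
        intro e x y hex hey
        refine hrJ e (hdis p q hp hq hpq e ?_ ?_)
        · exact (mem_chnSup (hA.1 p (hA'A p hp))).2 ⟨x, hex⟩
        · exact (mem_chnSup (hA.1 q (hA'A q hq))).2 ⟨y, hey⟩
      · intro z hz
        simp only [mem_bun]
        exact Or.inl (Or.inl hz)
      · intro z hz
        simp only [mem_bun]
        exact Or.inl (Or.inr hz)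
    have hin : ∀ p, E p A' → E (rs w J p) (PP w J) := fun p hp =>
      rf.rs hJs (hA.1 p (hA'A p hp))
    have hinj : ∀ p q, E p A' → E q A' → rs w J p = rs w J q → p = q := by
      intro p q hp hq h
      by_contra hpq
      exact hinc p q hp hq hpq ⟨rs w J p, hin p hp, Sub.refl _, by rw [h]; exact Sub.refl _⟩
    have hdf : Fn1 (fun p : M => rs w J p) := inferInstance
    apply hA'c
    refine cb.inj (fun p => rs w J p) hdf ((hc J hJ).2 (img A' (fun p => rs w J p)) ⟨?_, ?_⟩) ?_ hinj
    · intro z hz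
      rw [mem_img' hdf] at hz
      obtain ⟨p, hp, rfl⟩ := hz
      exact hin p hp
    · intro z z' hz hz' hzz'
      rw [mem_img' hdf] at hz hz'
      obtain ⟨p, hp, rfl⟩ := hz
      obtain ⟨q, hq, rfl⟩ := hz'
      exact hinc p q hp hq (fun h => hzz' (by rw [h]))
    · intro z hz
      rw [mem_img' hdf]
      exact ⟨z, hz, rfl⟩

end SW
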