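import Pool.Agent.H13.MA.Stmts

/-!
# Modules MAXA and CCP
-/

set_option linter.unusedVariables false
set_option synthInstance.maxSize 100000

namespace SW

/-- maximal antichains inside a subset of a poset -/
theorem ma_maxa (hz : ZORNStmt) : MAXAStmt := by
  intro M _ _ P D hD
  have hS : ∀ a : M, E a (sep (pow D) (fun a => Anti P a)) ↔ Sub a D ∧ Anti P a := fun a => by
    rw [mem_sep' inferInstance, mem_pow]
  obtain ⟨m, hm, hmax⟩ := hz M (sep (pow D) (fun a => Anti P a))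
    ⟨emp, (hS _).2 ⟨fun z h => absurd h (not_mem_emp z), fun z h => absurd h (not_mem_emp z),
      fun p q h => absurd h (not_mem_emp p)⟩⟩ (by
    intro c hc _ hchain
    refine ⟨sUn c, (hS _).2 ⟨?_, ?_, ?_⟩, fun x hx => sub_sUn hx⟩
    · intro z hz
      rw [mem_sUn] at hz
      obtain ⟨y, hy, hz⟩ := hz
      exact ((hS y).1 (hc y hy)).1 z hz
    · intro z hz
      rw [mem_sUn] at hz
      obtain ⟨y, hy, hz⟩ := hz
      exact hD z (((hS y).1 (hc y hy)).1 z hz)
    · intro p q hp hq hpq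
      rw [mem_sUn] at hp hq
      obtain ⟨x, hx, hp⟩ := hp
      obtain ⟨y, hy, hq⟩ := hq
      rcases hchain x y hx hy with h | h
      · exact ((hS y).1 (hc y hy)).2.2 p q (h p hp) hq hpq
      · exact ((hS x).1 (hc x hx)).2.2 p q hp (h q hq) hpq)
  have hm' := (hS m).1 hm
  refine ⟨m, hm'.1, hm'.2, fun d hd => ?_⟩
  by_contra hcon
  push Not at hcon
  have hdm : ¬ E d m := fun h => hcon d h ⟨d, hD d hd, Sub.refl d, Sub.refl d⟩
  have hsym : ∀ p q : M, Cpt P p q → Cpt P q p := fun p q ⟨r, h1, h2, h3⟩ => ⟨r, h1, h3, h2⟩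
  have hins : E (ins d m) (sep (pow D) (fun a => Anti P a)) := by
    refine (hS _).2 ⟨?_, ?_, ?_⟩
    · intro z hz
      rw [mem_ins] at hz
      rcases hz with hz | rfl
      · exact hm'.1 z hz
      · exact hd
    · intro z hz
      rw [mem_ins] at hz
      rcases hz with hz | rfl
      · exact hm'.2.1 z hz
      · exact hD _ hd
    · intro p q hp hq hpq
      rw [mem_ins] at hp hq
      rcases hp with hp | rfl
      · rcases hq with hq | rfl
        · exact hm'.2.2 p q hp hq hpq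
        · exact hcon p hp
      · rcases hq with hq | rfl
        · exact fun h => hcon q hq (hsym _ _ h)
        · exact absurd rfl hpq
  have := hmax _ hins (fun z hz => by rw [mem_ins]; exact Or.inl hz)
  apply hdm
  rw [← this, mem_ins]
  exact Or.inr rfl

/-- in a ccc poset some condition meets uncountably many members of a family -/
theorem ma_ccp (hma : MAXAStmt) (hcb : CBTStmt) (hwf : WFStmt) : CCPStmt := by
  intro M _ _ w P V hw hccc hV
  have cb := hcb M
  have wf := hwf M w hw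
  by_contra hcon
  push Not at hcon
  -- the dense set
  have hC2 : Cl2 (fun q b : M => E b w ∧ ∀ a : M, E a w → E b a → ¬ Cpt P q (app V a)) :=
    inferInstance
  have hmD : ∀ q : M, E q (sep P (fun q => ∃ b : M, E b w ∧ ∀ a : M, E a w → E b a →
      ¬ Cpt P q (app V a))) ↔ E q P ∧ ∃ b : M, E b w ∧ ∀ a : M, E a w → E b a →
      ¬ Cpt P q (app V a) := fun q => by rw [mem_sep' inferInstance]
  generalize hDdef : sep P (fun q => ∃ b : M, E b w ∧ ∀ a : M, E a w → E b a →
      ¬ Cpt P q (app V a)) = D at hmD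
  obtain ⟨A, hAD, hA, hmax⟩ := hma M P D (fun q hq => ((hmD q).1 hq).1)
  have hAc : Cb A := hccc A hA
  -- the bounds
  let f : M → M := fun q => the (fun b : M => (E b w ∧ ∀ a : M, E a w → E b a →
    ¬ Cpt P q (app V a)) ∧ ∀ c : M, E c b → ¬ (E c w ∧ ∀ a : M, E a w → E c a →
    ¬ Cpt P q (app V a)))
  have hf : Fn1 f := by
    show DfT (fun v : Fin 1 → M => the (fun b : M => (E b w ∧ ∀ a : M, E a w → E b a →
      ¬ Cpt P (v 0) (app V a)) ∧ ∀ c : M, E c b → ¬ (E c w ∧ ∀ a : M, E a w → E c a →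
      ¬ Cpt P (v 0) (app V a))))
    infer_instance
  have hfs : ∀ q, E q D → E (f q) w ∧ ∀ a : M, E a w → E (f q) a → ¬ Cpt P q (app V a) := by
    intro q hq
    obtain ⟨_, b0, hb0⟩ := (hmD q).1 hq
    obtain ⟨b, hb, hbmin⟩ := mem_min (C := fun b : M => E b w ∧ ∀ a : M, E a w → E b a →
      ¬ Cpt P q (app V a)) inferInstance ⟨b0, hb0⟩
    have h1 := the_spec (p := fun b : M => (E b w ∧ ∀ a : M, E a w → E b a →
      ¬ Cpt P q (app V a)) ∧ ∀ c : M, E c b → ¬ (E c w ∧ ∀ a : M, E a w → E c a →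
      ¬ Cpt P q (app V a))) ⟨b, ⟨hb, hbmin⟩, by
        rintro b' ⟨hb', hbmin'⟩
        rcases (wf.ord hb'.1).tri (wf.ord hb.1) with h | h | h
        · exact absurd hb' (hbmin b' h)
        · exact h
        · exact absurd hb (hbmin' b h)⟩
    exact h1.1
  have hbc : Cb (img A f) := cb.img f hf hAc
  obtain ⟨b, hb, hbb⟩ := wf.bdd (s := img A f) (by
    intro z hz
    rw [mem_img' hf] at hz
    obtain ⟨q, hq, rfl⟩ := hz
    exact (hfs q (hAD q hq)).1) hbc
  obtain ⟨q, hqP, hVq, b1, hb1, hb1'⟩ := hcon (app V b) (hV b hb)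
  obtain ⟨r, hrA, s, hsP, hrs, hqs⟩ := hmax q ((hmD q).2 ⟨hqP, b1, hb1, hb1'⟩)
  refine (hfs r (hAD r hrA)).2 b hb (hbb _ ((mem_img' hf).2 ⟨r, hrA, rfl⟩)) ?_
  exact ⟨s, hsP, hrs, Sub.trans hVq hqs⟩

end SW
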